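import Pool.Agent.Helper72_AND2B.Plt

/-!
# AND2B: the field `out` of `Ana`, with the alternative `Viol`
-/

set_option autoImplicit false

open MeasureTheory ProbabilityTheory

open scoped BigOperators NNReal ENNReal Matrix

noncomputable section

namespace Pool.Agent.AND2B.H72

open Pool.Agent.BED (Tor gau ev rep)
open Pool.Agent.Loc (sd)
open Pool.Agent.ANE (SolT)
open Pool.Agent.ANP
open Pool.Agent.AND2B

/-- `WLD E L V D` depends only on the potential in `D` -/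
theorem wld_congr {d M : ℕ} [NeZero M] {E L : ℝ} {V V' : Tor d M → ℝ} {D : Finset (Tor d M)}
    (h : ∀ x ∈ D, V x = V' x) (hW : WLD E L V D) : WLD E L V' D := by
  intro u hu
  have h1 : ∀ x ∈ D, ∀ y, Hr V' E x y = Hr V E x y := by
    intro x hx y
    unfold Hr
    rw [Matrix.add_apply, Matrix.add_apply]
    by_cases hxy : x = y
    · subst hxy
      rw [Matrix.diagonal_apply_eq, Matrix.diagonal_apply_eq, h x hx]
    · rw [Matrix.diagonal_apply_ne _ hxy, Matrix.diagonal_apply_ne _ hxy]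
  refine (hW u hu).trans (le_of_eq ?_)
  refine congrArg (fun z => L ^ 2 * z) (Finset.sum_congr rfl fun x hx => ?_)
  refine congrArg (fun z : ℂ => ‖z‖ ^ 2) (Finset.sum_congr rfl fun y _ => ?_)
  rw [h1 x hx y]

/-- a violation at dead sites makes the failure set a null set -/
theorem viol_null {d M : ℕ} [NeZero M] {E A ε L : ℝ} {R : ℕ} {T : Cfg (Tor d M)}
    {a : Tor d M → ℝ} {r : Tor d M → ℝ≥0}
    (har : ∀ x, T.s x = 0 → a x = T.V x ∧ r x = T.s x) (hV : Viol E L T) :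
    gm a r (FF d M E A ε R L) = 0 := by
  obtain ⟨D, hD, hW⟩ := hV
  refine measure_mono_null ?_ (gm_dead a r D fun x hx => by rw [(har x (hD x hx)).2, hD x hx])
  rintro U ⟨hU, -⟩
  by_contra hc
  refine hW (wld_congr (fun x hx => ?_) (hU D))
  by_contra h
  refine hc ⟨x, hx, ?_⟩
  rw [(har x (hD x hx)).1]
  exact h

theorem viol_win {d M : ℕ} [NeZero M] {E A ε L : ℝ} {R : ℕ} {T : Cfg (Tor d M)}
    {a : Tor d M → ℝ} {r : Tor d M → ℝ≥0}
    (har : ∀ x, T.s x = 0 → a x = T.V x ∧ r x = T.s x) (hV : Viol E L T) {e : ℝ} (he : 0 ≤ e) :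
    Win (FF d M E A ε R L) a r e := by
  unfold Win Measure.real
  rw [viol_null har hV]
  simpa using he

/-- the good final states -/
def GoodF {d M : ℕ} [NeZero M] (c₀ C₀ b E e₀ : ℝ) (T : Cfg (Tor d M)) (run : Finset (Tor d M)) :
    Prop :=
  (∀ x ∈ run, c₀ ≤ (T.mb x).im ∧ ‖T.mb x‖ ≤ C₀) ∧ (∀ x ∈ run, ‖net E e₀ T x 0‖ ≤ C₀) ∧
    b ≤ (net E e₀ T 0 0).im

/-- THE FIELD `out` of `Ana`, if `HS (N + 1) (kk (N + 1))` implies `Viol ∨ GoodF` -/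
theorem out_field (d : ℕ) {c₀ C₀ b : ℝ} (hc₀ : 0 < c₀) (hC₀ : 1 ≤ C₀) (hb : 0 < b) :
    ∃ ε : ℝ, 0 < ε ∧ ∀ (A : ℝ) (R : ℕ), ∃ t : ℝ, 0 < t ∧ t ≤ 1 ∧
      ∀ (th : ℝ≥0) (c₁ C₁ : ℝ) (α J : ℕ) (β : ℝ) (w : ℝ≥0) (N μ : ℕ) (kk l r Kn Dn : ℕ → ℕ),
        0 < th → 0 < w → Scal d th c₁ C₁ α J β w t N μ kk l r Kn Dn →
        ∀ (E L e₀ : ℝ), 0 < e₀ → e₀ ≤ sg w th kk (N + 1) ^ 2 →
        ∀ (T : Cfg (Tor d (2 ^ μ))) (run : Finset (Tor d (2 ^ μ))) (a' : Tor d (2 ^ μ) → ℝ)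
          (r' : Tor d (2 ^ μ) → ℝ≥0),
          Fc (Gt d μ J N l r) kk (cl w th) Dn (N + 1) (kk (N + 1)) ∅ T run → 0 ∈ run →
          (∀ x, x ∉ run → T.s x ≠ 0 →
            3 * (Gt d μ J N l r).ρ (N + 1) < (Gt d μ J N l r).D 0 x) →
          (∀ x, x ∈ run ∨ T.s x = 0 → a' x = T.V x ∧ r' x = T.s x) →
          (Viol E L T ∨ GoodF c₀ C₀ b E e₀ T run) →
          Win (FF d (2 ^ μ) E A ε R L) a' r' (1 / 4) := by
  obtain ⟨ε, hε, H⟩ := outw d c₀ C₀ b hc₀ hC₀ hb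
  refine ⟨ε, hε, fun A R => ?_⟩
  obtain ⟨s₁, hs₁, H⟩ := H A R
  refine ⟨min s₁ 1, lt_min hs₁ one_pos, min_le_right _ _, ?_⟩
  intro th c₁ C₁ α J β w N μ kk l r Kn Dn hth hw hS E L e₀ he₀ hes T run a' r' hF h0 hfar har hgood
  -- no frozen sites
  have hdead : ∀ x, x ∉ run → T.s x = 0 := by
    intro x hx
    by_contra h
    have h1 := hfar x hx h
    have h2 : (Gt d μ J N l r).D 0 x ≤ 2 ^ μ := by
      show H61.sd 0 x ≤ 2 ^ μ
      rw [H61.sd_le]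
      intro i
      have h3 : (0 - x i).valMinAbs.natAbs ≤ 2 ^ μ / 2 := ZMod.natAbs_valMinAbs_le _
      have h4 : H61.cd (0 : ZMod (2 ^ μ)) (x i) = (0 - x i).valMinAbs.natAbs := rfl
      have h5 : (2 ^ μ) / 2 ≤ 2 ^ μ := Nat.div_le_self _ _
      show H61.cd (0 : ZMod (2 ^ μ)) (x i) ≤ 2 ^ μ
      omega
    have h3 : (2 : ℕ) ^ μ ≤ 2 ^ r (N + 1) := Nat.pow_le_pow_right (by norm_num) hS.rN
    have h4 : (Gt d μ J N l r).ρ (N + 1) = 2 ^ r (N + 1) := rfl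
    rw [h4] at h1
    omega
  have ha : a' = T.V := by
    funext x
    by_cases hx : x ∈ run
    · exact (har x (Or.inl hx)).1
    · exact (har x (Or.inr (hdead x hx))).1
  have hr : r' = T.s := by
    funext x
    by_cases hx : x ∈ run
    · exact (har x (Or.inl hx)).2
    · exact (har x (Or.inr (hdead x hx))).2
  rcases hgood with hV | ⟨g1, g2, g3⟩
  · exact viol_win (fun x hx => har x (Or.inr hx)) hV (by norm_num)
  obtain ⟨s, hs⟩ : ∃ s : ℝ≥0, s = cl w th (kk (N + 1)) := ⟨_, rfl⟩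
  have hsg : sg w th kk (N + 1) = s := by
    rw [hs]
    rfl
  have hs0 : 0 < s := by
    rw [hs]
    unfold cl
    positivity
  have hsr : (0 : ℝ) < s := by exact_mod_cast hs0
  have hfin := hS.fin
  rw [hsg] at hfin hes
  have hs1 : (s : ℝ) ≤ 1 := hfin.trans (min_le_right _ _)
  have hM : (1 : ℝ) ≤ (s : ℝ) ^ 2 * ((2 ^ μ : ℕ) : ℝ) := by
    have h1 := hS.mN
    rw [hsg, Real.rpow_neg hsr.le] at h1
    have h2 : (s : ℝ) ^ (5 : ℝ) = (s : ℝ) ^ (5 : ℕ) := by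
      rw [← Real.rpow_natCast]
      norm_num
    rw [h2] at h1
    push_cast
    have h3 : (1 : ℝ) ≤ (s : ℝ) ^ 5 * 2 ^ μ := by
      have := mul_le_mul_of_nonneg_left h1 (by positivity : (0 : ℝ) ≤ (s : ℝ) ^ 5)
      rwa [mul_inv_cancel₀ (by positivity)] at this
    have h4 : (s : ℝ) ^ 5 ≤ (s : ℝ) ^ 2 := pow_le_pow_of_le_one hsr.le hs1 (by norm_num)
    have h5 := mul_le_mul_of_nonneg_right h4 (by positivity : (0 : ℝ) ≤ 2 ^ μ)
    linarith
  rw [ha, hr]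
  refine H (2 ^ μ) E e₀ L s T run hs0 (hfin.trans (min_le_left _ _)) hM he₀ hes
    (fun x hx => ⟨?_, g1 x hx⟩) hdead g2 h0 g3
    (plt hS le_rfl hF _ fun x hx => hdead x ?_)
  · have h1 := hF.runs x hx
    rw [if_neg (Finset.notMem_empty x)] at h1
    rw [h1, hs]
  · rw [Finset.mem_sdiff] at hx
    exact hx.2

end Pool.Agent.AND2B.H72
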