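import Pool.Agent.AHH.Defs
import Pool.Agent.Helper72_AND2B.OutF

/-!
# AND2B, row OUTA: the last good configuration
-/

set_option autoImplicit false

open MeasureTheory ProbabilityTheory

open scoped BigOperators NNReal ENNReal Matrix

noncomputable section

namespace Pool.Agent.AND2B.H72

open Pool.Agent.BED (Tor)
open Pool.Agent.ANP
open Pool.Agent.AND2B
open Pool.Agent.AHH

/-- a good configuration is good for the end -/
theorem good_of_stn {d M : ℕ} [NeZero M] {V : Env d M} {q : AHH.Num} {s : ℝ} {T : Cfg (Tor d M)}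
    {run : Finset (Tor d M)} (h : StN V q s T run) (h0 : 0 ∈ run) {C : ℝ}
    (hG : ∀ x, ‖V.G₀ x 0‖ ≤ C) (hdel : q.del ≤ 1) (hmis : q.mis ≤ V.c₀ / 2)
    (hC₀ : 0 ≤ V.C₀) : GoodF V.c₀ (V.C₀ + C + 1) (V.c₀ / 2) V.E V.e₀ T run := by
  have hC : 0 ≤ C := (norm_nonneg _).trans (hG 0)
  refine ⟨fun x hx => ?_, fun x hx => ?_, ?_⟩
  · obtain ⟨a1, a2, -⟩ := h.gau x (h.alv hx)
    exact ⟨a1, by linarith⟩
  · have h1 := h.ent x (h.alv hx) 0 (h.alv h0)
    have h2 := norm_add_le (net V.E V.e₀ T x 0 - V.G₀ x 0) (V.G₀ x 0)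
    rw [sub_add_cancel] at h2
    have h3 := hG x
    linarith
  · have h1 := h.mis 0 h0
    obtain ⟨a1, -, -⟩ := h.gau 0 (h.alv h0)
    have h2 := (Complex.abs_im_le_norm (net V.E V.e₀ T 0 0 - T.mb 0)).trans h1
    rw [Complex.sub_im, abs_le] at h2
    have h3 : gg T 0 = (T.mb 0).im := rfl
    rw [h3] at a1
    linarith [h2.1]

end Pool.Agent.AND2B.H72
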