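import Pool.Agent.AND2B.Stmts
import Pool.Agent.Helper72_ANE.Out
import Pool.Agent.Helper72_ANR.GEQ
import Pool.Agent.Helper77_ANR.DIR
import Pool.Agent.Helper63_ANR.GRN

/-!
# AND2B, row OUTW: the end of the protocol
-/

set_option autoImplicit false

open MeasureTheory ProbabilityTheory

open scoped BigOperators NNReal ENNReal Matrix

noncomputable section

namespace Pool.Agent.AND2B.H72

open Pool.Agent.Anderson hiding box mem_box card_box
open Pool.Agent.Loc Pool.Agent.Mob Pool.Agent.Helper54.Bal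
  Pool.Agent.Helper96.EXP Pool.Agent.BED
open Pool.Agent.LE.MN Pool.Agent.LE.CL Pool.Agent.LE.IR Pool.Agent.LE.QD
open Pool.Agent.ANP (Cfg gm Win)
open Pool.Agent.ANE (SolT HV)
open Pool.Agent.AND2B

/-! ### Markov -/

section gau

theorem lint_sq (a : ℝ) (r : ℝ≥0) :
    ∫⁻ y, ENNReal.ofReal ((y - a) ^ 2) ∂(gaussianReal a r) = r := by
  have hint : Integrable (fun y : ℝ => (y - a) ^ 2) (gaussianReal a r) := by
    have h := (memLp_id_gaussianReal (μ := a) (v := r) 2).sub (memLp_const a)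
    exact h.integrable_sq
  have h1 : ∫ y, y ∂(gaussianReal a r) = a := integral_id_gaussianReal
  have h2 : Var[fun y : ℝ => y; gaussianReal a r] = r := variance_fun_id_gaussianReal
  rw [variance_eq_integral (by fun_prop), h1] at h2
  rw [← ofReal_integral_eq_lintegral_ofReal hint (Filter.Eventually.of_forall fun y => sq_nonneg _),
    h2, ENNReal.ofReal_coe_nnreal]

variable {X : Type} [Fintype X]

theorem lint_coord (a : X → ℝ) (r : X → ℝ≥0) (x : X) :
    ∫⁻ U, ENNReal.ofReal ((U x - a x) ^ 2) ∂(gm a r) = r x := by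
  classical
  have h := (measurePreserving_eval (fun x : X => gaussianReal (a x) (r x)) x).lintegral_comp
    (f := fun y : ℝ => ENNReal.ofReal ((y - a x) ^ 2)) (by fun_prop)
  rw [lint_sq] at h
  exact h

/-- Markov for a weighted sum of squares of the noises -/
theorem gm_mar (a : X → ℝ) (r : X → ℝ≥0) (B : Finset X) (w : X → ℝ) (hw : ∀ x, 0 ≤ w x) {t S : ℝ}
    (ht : 0 < t) (hS : ∑ x ∈ B, (r x : ℝ) * w x ≤ S) (h : 16 * S ≤ t) :
    gm a r {U | t < ∑ x ∈ B, (U x - a x) ^ 2 * w x} ≤ ENNReal.ofReal (1 / 16) := by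
  have h1 : ∫⁻ U, ENNReal.ofReal (∑ x ∈ B, (U x - a x) ^ 2 * w x) ∂(gm a r) ≤
      ENNReal.ofReal S := by
    have e1 : ∀ U : X → ℝ, ENNReal.ofReal (∑ x ∈ B, (U x - a x) ^ 2 * w x) =
        ∑ x ∈ B, ENNReal.ofReal ((U x - a x) ^ 2) * ENNReal.ofReal (w x) := by
      intro U
      rw [ENNReal.ofReal_sum_of_nonneg fun x _ => mul_nonneg (sq_nonneg _) (hw x)]
      refine Finset.sum_congr rfl fun x _ => ?_
      rw [ENNReal.ofReal_mul (sq_nonneg _)]
    simp only [e1]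
    rw [lintegral_finsetSum _ fun x _ => by fun_prop]
    have e2 : ∀ x ∈ B, ∫⁻ U, ENNReal.ofReal ((U x - a x) ^ 2) * ENNReal.ofReal (w x) ∂(gm a r) =
        ENNReal.ofReal ((r x : ℝ) * w x) := by
      intro x _
      rw [lintegral_mul_const _ (by fun_prop), lint_coord, ENNReal.ofReal_mul (NNReal.coe_nonneg _),
        ENNReal.ofReal_coe_nnreal]
    rw [Finset.sum_congr rfl e2, ← ENNReal.ofReal_sum_of_nonneg fun x _ => mul_nonneg (NNReal.coe_nonneg _) (hw x)]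
    exact ENNReal.ofReal_le_ofReal hS
  have hme : Measurable fun U : X → ℝ => ENNReal.ofReal (∑ x ∈ B, (U x - a x) ^ 2 * w x) := by
    fun_prop
  have h2 := meas_ge_le_lintegral_div (μ := gm a r) hme.aemeasurable
    (ε := ENNReal.ofReal t) (by simpa using ht) ENNReal.ofReal_ne_top
  refine le_trans (measure_mono ?_) (h2.trans ?_)
  · intro U hU
    exact ENNReal.ofReal_le_ofReal (le_of_lt hU)
  · refine (ENNReal.div_le_div_right h1 _).trans ?_
    rw [← ENNReal.ofReal_div_of_pos ht]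
    refine ENNReal.ofReal_le_ofReal ?_
    rw [div_le_div_iff₀ ht (by norm_num)]
    linarith

/-- no noise where the variance is zero -/
theorem gm_dead (a : X → ℝ) (r : X → ℝ≥0) (S : Finset X) (hS : ∀ x ∈ S, r x = 0) :
    gm a r {U | ∃ x ∈ S, U x ≠ a x} = 0 := by
  classical
  have h1 : {U : X → ℝ | ∃ x ∈ S, U x ≠ a x} = ⋃ x ∈ S, {U | U x ≠ a x} := by
    ext U
    simp
  rw [h1]
  refine (measure_biUnion_null_iff S.countable_toSet).2 fun x hx => ?_
  have h := (measurePreserving_eval (fun x : X => gaussianReal (a x) (r x)) x).measure_preimage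
    (s := {a x}ᶜ) (measurableSet_singleton _).compl.nullMeasurableSet
  have h2 : gaussianReal (a x) (r x) {a x}ᶜ = 0 := by
    rw [hS x hx, gaussianReal_zero_var]
    simp
  rw [h2] at h
  exact h

end gau

/-! ### the number of sites of a ball -/

theorem card_ball {d M : ℕ} [NeZero M] (S : Finset (Tor d M)) (R : ℕ)
    (hS : ∀ x ∈ S, sd 0 (rep x) ≤ R) : S.card ≤ (2 * R + 1) ^ d := by
  classical
  rw [← Pool.Agent.Anderson.card_box (0 : Site d) R]
  refine Finset.card_le_card_of_injOn rep (fun x hx => ?_)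
    (Pool.Agent.LE.QX.H90.rep_inj.injOn)
  rw [Finset.mem_coe, Pool.Agent.Anderson.mem_box]
  intro i
  have h := hS x (Finset.mem_coe.1 hx)
  unfold sd at h
  have h2 := (Finset.sup_le_iff.1 h) i (Finset.mem_univ i)
  have h3 : (((0 : Site d) i - rep x i).natAbs : ℤ) ≤ R := by exact_mod_cast h2
  rw [Int.natCast_natAbs] at h3
  rw [abs_sub_comm]
  exact h3

/-- the numbers -/
theorem numbers (d : ℕ) {c₀ C₀ b A' K s e₀ M : ℝ} (hc₀ : 0 < c₀) (hC₀ : 1 ≤ C₀) (hb : 0 < b)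
    (hA0 : 0 < A') (hK0 : 0 < K) (hsr : 0 < s) (hM0 : 0 < M) (hsM : 1 ≤ s ^ 2 * M)
    (hes : e₀ ≤ s ^ 2) (s1 : s ≤ 1) (s2 : s ≤ b / (16 * C₀ * A')) (s3 : s ≤ (b / 16) ^ 2 / (A' * K))
    (s4 : s ≤ (b / (512 * (d + 1))) ^ 2 * c₀ / (A' * C₀)) :
    (e₀ + s * C₀) * A' ≤ b / 8 ∧ Real.sqrt A' * Real.sqrt (s * K) ≤ b / 16 ∧
      2 * (d : ℝ) * (16 / M) * Real.sqrt A' * Real.sqrt (C₀ / (c₀ * s)) ≤ b / 16 := by
  have hC0 : 0 < C₀ := by linarith
  refine ⟨?_, ?_, ?_⟩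
  · have h1 : e₀ + s * C₀ ≤ 2 * s * C₀ := by
      have h2 : s ^ 2 ≤ s * C₀ := by
        rw [pow_two]
        exact mul_le_mul_of_nonneg_left (s1.trans hC₀) hsr.le
      linarith
    have h3 : s * (16 * C₀ * A') ≤ b := (le_div_iff₀ (by positivity)).1 s2
    have h4 := mul_le_mul_of_nonneg_right h1 hA0.le
    linarith
  · rw [← Real.sqrt_mul hA0.le]
    refine Real.sqrt_le_iff.2 ⟨by positivity, ?_⟩
    have h1 := (le_div_iff₀ (by positivity)).1 s3
    linarith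
  · have h0 : 16 / M ≤ 16 * s ^ 2 := by
      rw [div_le_iff₀ hM0]
      linarith
    have h1 : Real.sqrt A' * Real.sqrt (C₀ / (c₀ * s)) * s ≤ b / (512 * (d + 1)) := by
      rw [← Real.sqrt_mul hA0.le]
      have h2 : Real.sqrt (A' * (C₀ / (c₀ * s))) * s =
          Real.sqrt (A' * (C₀ / (c₀ * s)) * s ^ 2) := by
        rw [Real.sqrt_mul (x := A' * (C₀ / (c₀ * s))) (by positivity) (s ^ 2), Real.sqrt_sq hsr.le]
      rw [h2]
      refine Real.sqrt_le_iff.2 ⟨by positivity, ?_⟩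
      have h3 := (le_div_iff₀ (by positivity)).1 s4
      have h4 : A' * (C₀ / (c₀ * s)) * s ^ 2 = s * (A' * C₀) / c₀ := by
        field_simp
      rw [h4, div_le_iff₀ hc₀]
      exact h3
    have h5 : 0 ≤ Real.sqrt A' * Real.sqrt (C₀ / (c₀ * s)) := by positivity
    calc 2 * (d : ℝ) * (16 / M) * Real.sqrt A' * Real.sqrt (C₀ / (c₀ * s))
        = 2 * d * (Real.sqrt A' * Real.sqrt (C₀ / (c₀ * s))) * (16 / M) := by ring
      _ ≤ 2 * d * (Real.sqrt A' * Real.sqrt (C₀ / (c₀ * s))) * (16 * s ^ 2) := by gcongr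
      _ = 32 * d * s * (Real.sqrt A' * Real.sqrt (C₀ / (c₀ * s)) * s) := by ring
      _ ≤ 32 * d * 1 * (b / (512 * (d + 1))) := by gcongr
      _ = b / 16 * (d / (d + 1)) := by field_simp; ring
      _ ≤ b / 16 * 1 := by
          refine mul_le_mul_of_nonneg_left ?_ (by positivity)
          rw [div_le_one (by positivity)]
          linarith
      _ = b / 16 := by ring

/-! ### OUTW -/

theorem outw : OutWStmt := by
  classical
  intro d c₀ C₀ b hc₀ hC₀ hb
  have hC0 : 0 < C₀ := by linarith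
  obtain ⟨Q, hQdef⟩ : ∃ Q : ℝ, Q = Real.sqrt ((32 + 2 * C₀ ^ 2) * (C₀ / c₀)) := ⟨_, rfl⟩
  have hQ0 : 0 < Q := by
    rw [hQdef]
    refine Real.sqrt_pos.2 ?_
    positivity
  have hQ2 : Q ^ 2 = (32 + 2 * C₀ ^ 2) * (C₀ / c₀) := by
    rw [hQdef, Real.sq_sqrt (by positivity)]
  have n3 : b / (16 * Q) * Q = b / 16 := by
    field_simp
  refine ⟨b / (16 * Q), by positivity, ?_⟩
  intro A R
  obtain ⟨A', hA'⟩ : ∃ A' : ℝ, A' = max A 0 + 1 := ⟨_, rfl⟩
  have hA1 : A ≤ A' := by rw [hA']; linarith [le_max_left A 0]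
  have hA0 : 0 < A' := by rw [hA']; linarith [le_max_right A 0]
  obtain ⟨n, hn⟩ : ∃ n : ℝ, n = (2 * R + 1) ^ d := ⟨_, rfl⟩
  have hn0 : 0 < n := by rw [hn]; positivity
  obtain ⟨K, hK⟩ : ∃ K : ℝ, K = (32 * C₀ ^ 2 + 2 * C₀ ^ 4) * n := ⟨_, rfl⟩
  have hK0 : 0 < K := by rw [hK]; positivity
  obtain ⟨s₁, hs₁⟩ : ∃ s₁ : ℝ, s₁ = min (min 1 (b / (16 * C₀ * A')))
      (min ((b / 16) ^ 2 / (A' * K)) ((b / (512 * (d + 1))) ^ 2 * c₀ / (A' * C₀))) := ⟨_, rfl⟩
  refine ⟨s₁, ?_, ?_⟩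
  · rw [hs₁]
    refine lt_min (lt_min one_pos (by positivity)) (lt_min (by positivity) (by positivity))
  intro M _ E e₀ L s T run hs0 hss hsM he0 hes hrun hdead hent h0run hb0 hPlat
  have hsr : (0 : ℝ) < s := by exact_mod_cast hs0
  have s1 : (s : ℝ) ≤ 1 := hss.trans (by rw [hs₁]; exact (min_le_left _ _).trans (min_le_left _ _))
  have s2 : (s : ℝ) ≤ b / (16 * C₀ * A') :=
    hss.trans (by rw [hs₁]; exact (min_le_left _ _).trans (min_le_right _ _))
  have s3 : (s : ℝ) ≤ (b / 16) ^ 2 / (A' * K) :=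
    hss.trans (by rw [hs₁]; exact (min_le_right _ _).trans (min_le_left _ _))
  have s4 : (s : ℝ) ≤ (b / (512 * (d + 1))) ^ 2 * c₀ / (A' * C₀) :=
    hss.trans (by rw [hs₁]; exact (min_le_right _ _).trans (min_le_right _ _))
  have hM0 : (0 : ℝ) < M := by
    have : 0 < M := Nat.pos_of_ne_zero (NeZero.ne M)
    exact_mod_cast this
  -- the network
  obtain ⟨V, hV⟩ : ∃ V : Tor d M → ℝ, V = Vef T := ⟨_, rfl⟩
  obtain ⟨κ, hκ⟩ : ∃ κ : Tor d M → ℝ, κ = kap e₀ T := ⟨_, rfl⟩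
  have hnet : net E e₀ T = Pool.Agent.ANR.Gr (HV d M E V) κ := by
    rw [hV, hκ]
    rfl
  rw [hnet] at hent hb0
  have hκrun : ∀ x ∈ run, (s : ℝ) * c₀ ≤ κ x ∧ κ x ≤ e₀ + s * C₀ := by
    intro x hx
    obtain ⟨r1, r2, r3⟩ := hrun x hx
    rw [hκ]
    unfold kap
    rw [r1]
    have r4 : (T.mb x).im ≤ C₀ := (Complex.im_le_norm _).trans r3
    constructor
    · have := mul_le_mul_of_nonneg_left r2 hsr.le
      linarith
    · have := mul_le_mul_of_nonneg_left r4 hsr.le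
      linarith
  have hκdead : ∀ x, x ∉ run → κ x = e₀ := by
    intro x hx
    rw [hκ]
    unfold kap
    rw [hdead x hx]
    simp
  have hκpos : ∀ x, 0 < κ x := by
    intro x
    by_cases hx : x ∈ run
    · exact lt_of_lt_of_le (by positivity) (hκrun x hx).1
    · rw [hκdead x hx]
      exact he0
  have hκle : ∀ x, κ x ≤ e₀ + s * C₀ := by
    intro x
    by_cases hx : x ∈ run
    · exact (hκrun x hx).2
    · rw [hκdead x hx]
      nlinarith
  have hGEQ := Pool.Agent.ANR.H72.geq (Pool.Agent.ANR.H77.dir Pool.Agent.ANR.H63.grn)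
    Pool.Agent.ANR.H63.grn
  have hN := Pool.Agent.ANE.H72.net_hv E V hκpos
  obtain ⟨-, -, g3, -, -⟩ := hGEQ (Tor d M) (HV d M E V) κ hN
  obtain ⟨w, hw⟩ : ∃ w : Tor d M → ℝ, ∀ x, w x = ‖Pool.Agent.ANR.Gr (HV d M E V) κ x 0‖ ^ 2 :=
    ⟨_, fun _ => rfl⟩
  have hw0 : ∀ x, 0 ≤ w x := fun x => by rw [hw]; positivity
  have hwC : ∀ x ∈ run, w x ≤ C₀ ^ 2 := by
    intro x hx
    rw [hw]
    exact pow_le_pow_left₀ (norm_nonneg _) (hent x hx) 2
  have hI : (Pool.Agent.ANR.Gr (HV d M E V) κ 0 0).im ≤ C₀ :=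
    (Complex.im_le_norm _).trans (hent 0 h0run)
  have hward : ∑ x, κ x * w x ≤ C₀ := by
    refine le_trans (le_of_eq ?_) hI
    rw [← g3 0]
    exact Finset.sum_congr rfl fun x _ => by rw [hw]
  have hsw : ∑ x ∈ run, (s : ℝ) * w x ≤ C₀ / c₀ := by
    rw [le_div_iff₀ hc₀, Finset.sum_mul]
    refine le_trans (Finset.sum_le_sum fun x hx => ?_) ((Finset.sum_le_univ_sum_of_nonneg
      fun x => mul_nonneg (hκpos x).le (hw0 x)).trans hward)
    have := mul_le_mul_of_nonneg_right (hκrun x hx).1 (hw0 x)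
    linarith
  obtain ⟨B, hB⟩ : ∃ B : Finset (Tor d M), B = run.filter fun x => sd 0 (rep x) ≤ R := ⟨_, rfl⟩
  have hBrun : ∀ x ∈ B, x ∈ run := fun x hx => by
    rw [hB, Finset.mem_filter] at hx
    exact hx.1
  have hBc : (B.card : ℝ) ≤ n := by
    rw [hn]
    have := card_ball B R (fun x hx => by
      rw [hB, Finset.mem_filter] at hx
      exact hx.2)
    exact_mod_cast this
  have hwB : ∑ x ∈ B, w x ≤ C₀ ^ 2 * n := by
    calc ∑ x ∈ B, w x ≤ ∑ _x ∈ B, C₀ ^ 2 := Finset.sum_le_sum fun x hx => hwC x (hBrun x hx)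
      _ = (B.card : ℝ) * C₀ ^ 2 := by rw [Finset.sum_const, nsmul_eq_mul]
      _ ≤ n * C₀ ^ 2 := mul_le_mul_of_nonneg_right hBc (by positivity)
      _ = C₀ ^ 2 * n := by ring
  -- the three events
  have p1 := gm_mar T.V T.s B w hw0 (t := 16 * (s * (C₀ ^ 2 * n))) (S := s * (C₀ ^ 2 * n))
    (by positivity) (by
      calc ∑ x ∈ B, (T.s x : ℝ) * w x = ∑ x ∈ B, (s : ℝ) * w x :=
            Finset.sum_congr rfl fun x hx => by rw [(hrun x (hBrun x hx)).1]
        _ = s * ∑ x ∈ B, w x := by rw [Finset.mul_sum]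
        _ ≤ s * (C₀ ^ 2 * n) := mul_le_mul_of_nonneg_left hwB hsr.le) le_rfl
  have p2 := gm_mar T.V T.s run w hw0 (t := 16 * (C₀ / c₀)) (S := C₀ / c₀)
    (by positivity) (by
      calc ∑ x ∈ run, (T.s x : ℝ) * w x = ∑ x ∈ run, (s : ℝ) * w x :=
            Finset.sum_congr rfl fun x hx => by rw [(hrun x hx).1]
        _ ≤ C₀ / c₀ := hsw) le_rfl
  have p3 := gm_dead T.V T.s (Finset.univ \ run) (fun x hx => hdead x (by
    rw [Finset.mem_sdiff] at hx
    exact hx.2))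
  have hsub : FF d M E A (b / (16 * Q)) R L ⊆
      {U | 16 * (s * (C₀ ^ 2 * n)) < ∑ x ∈ B, (U x - T.V x) ^ 2 * w x} ∪
      ({U | 16 * (C₀ / c₀) < ∑ x ∈ run, (U x - T.V x) ^ 2 * w x} ∪
      {U | ∃ x ∈ Finset.univ \ run, U x ≠ T.V x}) := by
    rintro U ⟨-, hSol⟩
    by_contra hc
    rw [Set.mem_union, Set.mem_union, not_or, not_or] at hc
    obtain ⟨c1, c2, c3⟩ := hc
    have c1' : ∑ x ∈ B, (U x - T.V x) ^ 2 * w x ≤ 16 * (s * (C₀ ^ 2 * n)) := not_lt.1 c1
    have c2' : ∑ x ∈ run, (U x - T.V x) ^ 2 * w x ≤ 16 * (C₀ / c₀) := not_lt.1 c2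
    have c3' : ∀ x, x ∉ run → U x = T.V x := by
      intro x hx
      by_contra h
      exact c3 ⟨x, by simp [hx], h⟩
    have hquad : ∀ x ∈ run, (U x - V x) ^ 2 * w x ≤
        2 * ((U x - T.V x) ^ 2 * w x) + 2 * (s * C₀ ^ 2) * (s * w x) := by
      intro x hx
      obtain ⟨r1, r2, r3⟩ := hrun x hx
      have r4 : V x = T.V x - s * (T.mb x).re := by
        rw [hV]
        unfold Vef
        rw [r1]
      have r5 : (T.mb x).re ^ 2 ≤ C₀ ^ 2 := by
        rw [← sq_abs]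
        exact pow_le_pow_left₀ (abs_nonneg _) ((Complex.abs_re_le_norm _).trans r3) 2
      have r6 : (U x - V x) ^ 2 ≤ 2 * (U x - T.V x) ^ 2 + 2 * (s * C₀ ^ 2) * s := by
        rw [r4]
        have r7 : (s : ℝ) ^ 2 * (T.mb x).re ^ 2 ≤ (s : ℝ) ^ 2 * C₀ ^ 2 :=
          mul_le_mul_of_nonneg_left r5 (by positivity)
        nlinarith [sq_nonneg ((U x - T.V x) - s * (T.mb x).re)]
      calc (U x - V x) ^ 2 * w x ≤ (2 * (U x - T.V x) ^ 2 + 2 * (s * C₀ ^ 2) * s) * w x :=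
            mul_le_mul_of_nonneg_right r6 (hw0 x)
        _ = _ := by ring
    have hBnn : 0 ≤ ∑ x ∈ B, w x := Finset.sum_nonneg fun x _ => hw0 x
    have hrnn : 0 ≤ ∑ x ∈ run, (s : ℝ) * w x :=
      Finset.sum_nonneg fun x _ => mul_nonneg hsr.le (hw0 x)
    have hPs : ∑ x ∈ run.filter (fun x => sd 0 (rep x) ≤ R), (U x - V x) ^ 2 *
        ‖Pool.Agent.ANR.Gr (HV d M E V) κ x 0‖ ^ 2 ≤ Real.sqrt (s * K) ^ 2 := by
      rw [← hB, Real.sq_sqrt (by positivity)]
      simp only [← hw]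
      calc ∑ x ∈ B, (U x - V x) ^ 2 * w x
          ≤ ∑ x ∈ B, (2 * ((U x - T.V x) ^ 2 * w x) + 2 * (s * C₀ ^ 2) * (s * w x)) :=
            Finset.sum_le_sum fun x hx => hquad x (hBrun x hx)
        _ = 2 * ∑ x ∈ B, (U x - T.V x) ^ 2 * w x + 2 * (s * C₀ ^ 2) * (s * ∑ x ∈ B, w x) := by
            rw [Finset.sum_add_distrib, ← Finset.mul_sum, ← Finset.mul_sum, ← Finset.mul_sum]
        _ ≤ 2 * (16 * (s * (C₀ ^ 2 * n))) + 2 * (s * C₀ ^ 2) * (1 * (C₀ ^ 2 * n)) := by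
            gcongr
        _ = s * K := by rw [hK]; ring
    have hQs : ∑ x ∈ run, (U x - V x) ^ 2 *
        ‖Pool.Agent.ANR.Gr (HV d M E V) κ x 0‖ ^ 2 ≤ Q ^ 2 := by
      rw [hQ2]
      simp only [← hw]
      calc ∑ x ∈ run, (U x - V x) ^ 2 * w x
          ≤ ∑ x ∈ run, (2 * ((U x - T.V x) ^ 2 * w x) + 2 * (s * C₀ ^ 2) * (s * w x)) :=
            Finset.sum_le_sum fun x hx => hquad x hx
        _ = 2 * ∑ x ∈ run, (U x - T.V x) ^ 2 * w x + 2 * (s * C₀ ^ 2) * ∑ x ∈ run, s * w x := by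
            rw [Finset.sum_add_distrib, ← Finset.mul_sum, ← Finset.mul_sum]
        _ ≤ 2 * (16 * (C₀ / c₀)) + 2 * (1 * C₀ ^ 2) * (C₀ / c₀) := by
            gcongr
        _ = (32 + 2 * C₀ ^ 2) * (C₀ / c₀) := by ring
    have hWs : ∑ x ∈ run, ‖Pool.Agent.ANR.Gr (HV d M E V) κ x 0‖ ^ 2 ≤
        Real.sqrt (C₀ / (c₀ * s)) ^ 2 := by
      rw [Real.sq_sqrt (by positivity)]
      simp only [← hw]
      rw [← div_div, le_div_iff₀ hsr, mul_comm, Finset.mul_sum]
      exact hsw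
    have hSol' : SolT d M E A' (b / (16 * Q)) R U := by
      obtain ⟨v, v1, v2, v3⟩ := hSol
      exact ⟨v, v1.trans hA1, v2, v3⟩
    -- the cutoff
    obtain ⟨φ, f0, f1, f2, f3⟩ := hPlat
    obtain ⟨χ, hχ⟩ : ∃ χ : Tor d M → ℝ, ∀ x, χ x = max (1 - 16 * (φ x : ℝ) / M) 0 :=
      ⟨_, fun _ => rfl⟩
    have k := Pool.Agent.ANE.H72.out hGEQ d M E A' (b / (16 * Q)) (e₀ + s * C₀) (16 / M)
      (Real.sqrt (s * K)) Q (Real.sqrt (C₀ / (c₀ * s))) R U V κ χ run (by positivity)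
      (by positivity) (Real.sqrt_nonneg _) hQ0.le (Real.sqrt_nonneg _)
      (fun x => ⟨hκpos x, hκle x⟩) (by rw [hχ, f0]; simp)
      (fun x => by
        rw [hχ]
        refine ⟨le_max_right _ _, max_le ?_ zero_le_one⟩
        have : (0 : ℝ) ≤ 16 * (φ x : ℝ) / M := by positivity
        linarith)
      (fun x hx => by
        by_contra h
        rw [not_le] at h
        have h1 := f3 x h
        have h2 : (M : ℝ) ≤ 16 * φ x := by exact_mod_cast h1
        refine hx ?_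
        rw [hχ]
        refine max_eq_right ?_
        rw [sub_nonpos, le_div_iff₀ hM0]
        linarith)
      (fun x i => by
        rw [hχ, hχ]
        obtain ⟨h1, h2⟩ := f1 x i
        have h3 : (φ (x + ev i) : ℝ) ≤ φ x + 1 := by exact_mod_cast h1
        have h4 : (φ x : ℝ) ≤ φ (x + ev i) + 1 := by exact_mod_cast h2
        refine (abs_max_sub_max_le_abs _ _ _).trans ?_
        rw [show (1 - 16 * (φ (x + ev i) : ℝ) / M) - (1 - 16 * (φ x : ℝ) / M) =
          16 * ((φ x : ℝ) - φ (x + ev i)) / M by ring, abs_div, abs_of_pos hM0]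
        refine div_le_div_of_nonneg_right ?_ hM0.le
        rw [abs_le]
        constructor <;> linarith)
      (fun x i h => by
        rw [hχ, hχ, f2 x i (by
          rcases h with h | h
          · left; simp [h]
          · right; simp [h])])
      (fun x hx _ => by
        rw [c3' x hx, hV]
        unfold Vef
        rw [hdead x hx]
        simp)
      hPs hQs hWs hSol'
    obtain ⟨n1, n2, n4⟩ := numbers (M := M) d hc₀ hC₀ hb hA0 hK0 hsr hM0 hsM hes s1 s2 s3 s4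
    linarith
  unfold Win Measure.real
  refine ENNReal.toReal_le_of_le_ofReal (by norm_num) ?_
  calc gm T.V T.s (FF d M E A (b / (16 * Q)) R L)
      ≤ ENNReal.ofReal (1 / 16) + (ENNReal.ofReal (1 / 16) + 0) := by
        refine (measure_mono hsub).trans ((measure_union_le _ _).trans (add_le_add p1 ?_))
        refine (measure_union_le _ _).trans (add_le_add p2 (le_of_eq p3))
    _ ≤ ENNReal.ofReal (1 / 4) := by
        rw [add_zero, ← ENNReal.ofReal_add (by norm_num) (by norm_num)]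
        exact ENNReal.ofReal_le_ofReal (by norm_num)

end Pool.Agent.AND2B.H72
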