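import Pool.Agent.AND2B.Top
import Pool.Agent.Helper61_ANP.Pth
import Pool.Agent.Helper72_AND2B.OutW

/-!
# AND2B, row PLT: the plateau cutoff, and the field `out` of `Ana`
-/

set_option autoImplicit false

open MeasureTheory ProbabilityTheory

open scoped BigOperators NNReal ENNReal Matrix

noncomputable section

namespace Pool.Agent.AND2B.H72

open Pool.Agent.BED (Tor gau ev rep)
open Pool.Agent.Loc (sd)
open Pool.Agent.ANE (SolT)
open Pool.Agent.ANP
open Pool.Agent.AND2B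

theorem cd_zero {M : ℕ} (a : ZMod M) : H61.cd 0 a = (0 - a.valMinAbs).natAbs := by
  unfold H61.cd
  rw [zero_sub, zero_sub, Int.natAbs_neg, ZMod.natAbs_valMinAbs_neg]

/-- the two distances to the origin agree -/
theorem dist_zero {d M : ℕ} (x : Tor d M) : H61.sd 0 x = sd 0 (rep x) := by
  unfold H61.sd sd
  refine Finset.sup_congr rfl fun i _ => ?_
  exact cd_zero (x i)

theorem dist_ev {d M : ℕ} [NeZero M] (x : Tor d M) (i : Fin d) : H61.sd x (x + ev i) ≤ 1 := by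
  rw [H61.sd_le]
  intro j
  by_cases h : j = i
  · subst h
    refine (H61.cd_le _ _ (-1) ?_).trans (by norm_num)
    simp [ev]
  · refine (H61.cd_le _ _ 0 ?_).trans (by norm_num)
    simp [ev, h]

/-- PLT: the dead sites of the final configuration have a plateau cutoff -/
theorem plt {d : ℕ} {th : ℝ≥0} {c₁ C₁ : ℝ} {α J : ℕ} {β : ℝ} {w : ℝ≥0} {t : ℝ} {N μ : ℕ}
    {kk l r Kn Dn : ℕ → ℕ} (hS : Scal d th c₁ C₁ α J β w t N μ kk l r Kn Dn)
    {n k : ℕ} (hn : n ≤ N + 1) {P : Finset (Tor d (2 ^ μ))} {T : Cfg (Tor d (2 ^ μ))}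
    {run : Finset (Tor d (2 ^ μ))}
    (hF : Fc (Gt d μ J N l r) kk (cl w th) Dn n k P T run) (D : Finset (Tor d (2 ^ μ)))
    (hD : ∀ x ∈ D, T.s x = 0) : Plat D := by
  have hG : GeoOk (Gt d μ J N l r) d := H61.trg d μ l _ hS.lm J N
  obtain ⟨dd, h1, h2⟩ := hF.dens
  obtain ⟨φ, f0, f1, -, f3, f4⟩ := H61.ptw (Gt d μ J N l r) d hG (fun i => Nat.one_le_two_pow)
    (fun x y => (Gt d μ J N l r).D x y ≤ 1) (fun x y h => by rw [hG.comm]; exact h)
    (fun x y h => h) (Finset.range (N + 2)) dd Dn (fun i _ B => h2 i B)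
    (by
      have := hS.ds
      simpa [Gt, H61.geoT] using this) 0 (2 ^ μ)
  refine ⟨φ, f0, fun x i => ?_, fun x i h => ?_, fun x hx => ?_⟩
  · have h3 := dist_ev x i
    exact ⟨f3 x (x + ev i) h3, f3 (x + ev i) x (by rw [hG.comm]; exact h3)⟩
  · refine f4 x (x + ev i) (dist_ev x i) ?_
    rcases h with h | h
    · left
      obtain ⟨j, hj, hj2⟩ := h1 x (hD x h)
      exact Finset.mem_biUnion.2 ⟨j, Finset.mem_range.2 (by omega), hj2⟩
    · right
      obtain ⟨j, hj, hj2⟩ := h1 _ (hD _ h)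
      exact Finset.mem_biUnion.2 ⟨j, Finset.mem_range.2 (by omega), hj2⟩
  · have h3 := f1 x
    have h4 : (Gt d μ J N l r).D 0 x = sd 0 (rep x) := dist_zero x
    rw [h4] at h3
    have h5 := hS.dM
    have h6 : ((2 ^ μ : ℕ) : ℝ) < 4 * (sd 0 (rep x) : ℝ) := by exact_mod_cast hx
    push_cast at h6 h3
    have h7 : (2 ^ μ : ℝ) ≤ 16 * (φ x : ℝ) := by
      rcases min_le_iff.1 h3 with h | h
      · have : (0 : ℝ) < 2 ^ μ := by positivity
        linarith
      · linarith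
    have h8 : ((2 ^ μ : ℕ) : ℝ) ≤ ((16 * φ x : ℕ) : ℝ) := by
      push_cast
      exact h7
    exact_mod_cast h8

end Pool.Agent.AND2B.H72
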